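import Pool.Agent.R964.HitWindow

/-!
# MP_eadfc1: hitting probabilities of a time window
-/

set_option autoImplicit false

namespace Pool.Agent.Results.MP_eadfc1_pr.WindowDisproof

open Finset Pool.Agent.R964.HitWindow

/-- `P` is a transition matrix: nonnegative entries and row sums one. -/
structure IsStochastic {n : ℕ} (P : Matrix (Fin n) (Fin n) ℝ) : Prop where
  nonneg : ∀ i j, 0 ≤ P i j
  row_sum : ∀ i, ∑ j, P i j = 1

/-- `P_x(s ≤ τ(y) ≤ u)`, the sum of the hitting probabilities `P_x(τ(y) = k)`, `s ≤ k ≤ u`. -/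
noncomputable def windowProb {n : ℕ} (P : Matrix (Fin n) (Fin n) ℝ) (x y : Fin n) (s u : ℕ) : ℝ :=
  ∑ k ∈ Finset.Icc s u, hitProb P x y k

/-- The bound asked for in the problem: there is an absolute constant `C` with
`P_x(t ≤ τ(y) ≤ t + n) ≤ C n / t` for all chains on `n` states, all `x, y` and all `t > n`. -/
def WindowBound : Prop :=
  ∃ C : ℝ, ∀ n : ℕ, 1 ≤ n → ∀ P : Matrix (Fin n) (Fin n) ℝ, IsStochastic P →
    ∀ (x y : Fin n) (t : ℕ), n < t → windowProb P x y t (t + n) ≤ C * (n / t)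

/-- **Disproof.** For every `L ≥ 4` there are a chain on `n = L² + 1` states, states `x, y` and a
time `t > n`, `t ≥ L³ - 2L²`, with `P_x(t ≤ τ(y) ≤ t + n) ≥ 3/16`. As `n / t` is of order
`1 / L`, there is no absolute constant `C`. -/
theorem result :
    (∀ L : ℕ, 4 ≤ L → ∃ P : Matrix (Fin (L ^ 2 + 1)) (Fin (L ^ 2 + 1)) ℝ, IsStochastic P ∧
      ∃ (x y : Fin (L ^ 2 + 1)) (t : ℕ), L ^ 2 + 1 < t ∧ L ^ 3 - 2 * L ^ 2 ≤ t ∧
        3 / 16 ≤ windowProb P x y t (t + (L ^ 2 + 1))) ∧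
    ¬ WindowBound := by
  have main : ∀ L : ℕ, 4 ≤ L → ∃ P : Matrix (Fin (L ^ 2 + 1)) (Fin (L ^ 2 + 1)) ℝ,
      IsStochastic P ∧ ∃ (x y : Fin (L ^ 2 + 1)) (t : ℕ), L ^ 2 + 1 < t ∧
        L ^ 3 - 2 * L ^ 2 ≤ t ∧ 3 / 16 ≤ windowProb P x y t (t + (L ^ 2 + 1)) := by
    intro L hL
    have hLr : (4 : ℝ) ≤ L := by exact_mod_cast hL
    obtain ⟨t, ht, hw⟩ := window hL
    refine ⟨birth (L ^ 2) (1 / (L : ℝ)), ⟨fun i j => birth_nonneg (by positivity) ?_ i j,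
      birth_row⟩, 0, Fin.last _, t, ?_, ht, ?_⟩
    · rw [div_le_one (by linarith)]; linarith
    · have h1 : 16 ≤ L ^ 2 := by nlinarith
      have h2 : 4 * L ^ 2 ≤ L ^ 3 := by nlinarith
      omega
    · unfold windowProb
      refine hw.trans (le_of_eq ?_)
      refine Finset.sum_congr rfl fun k _ => ?_
      rw [birth_hit]
      simp
  refine ⟨main, ?_⟩
  rintro ⟨C, hC⟩
  obtain ⟨L0, hL0⟩ := exists_nat_gt (64 * C / 3)
  set L := max 4 L0 with hLdef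
  have hL : 4 ≤ L := le_max_left _ _
  have hLL : (L0 : ℝ) ≤ L := by exact_mod_cast le_max_right 4 L0
  obtain ⟨P, hP, x, y, t, ht1, ht2, hw⟩ := main L hL
  have h1 := hC (L ^ 2 + 1) (by omega) P hP x y t ht1
  have hLr : (4 : ℝ) ≤ L := by exact_mod_cast hL
  have htpos : (0 : ℝ) < t := by
    have : 0 < t := by omega
    exact_mod_cast this
  have h2 : (L : ℝ) ^ 3 ≤ t + 2 * (L : ℝ) ^ 2 := by
    have : L ^ 3 ≤ t + 2 * L ^ 2 := by omega
    exact_mod_cast this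
  have h3 : 3 / 16 ≤ C * (((L ^ 2 + 1 : ℕ) : ℝ) / t) := hw.trans h1
  have h4 : (((L ^ 2 + 1 : ℕ) : ℝ)) = (L : ℝ) ^ 2 + 1 := by push_cast; ring
  rw [h4, ← mul_div_assoc, le_div_iff₀ htpos] at h3
  -- `3 t / 16 ≤ C (L² + 1)`
  have hCpos : 0 < C := by
    by_contra hcon
    push Not at hcon
    have : C * ((L : ℝ) ^ 2 + 1) ≤ 0 := mul_nonpos_of_nonpos_of_nonneg hcon (by positivity)
    nlinarith
  have h5 : 64 * C < 3 * (L : ℝ) := by
    have : 64 * C / 3 < L := hL0.trans_le hLL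
    rw [div_lt_iff₀ (by norm_num)] at this
    linarith
  have h6 : (L : ℝ) ^ 3 / 2 ≤ t := by nlinarith [sq_nonneg (L : ℝ)]
  have h7 : C * ((L : ℝ) ^ 2 + 1) ≤ C * (2 * (L : ℝ) ^ 2) :=
    mul_le_mul_of_nonneg_left (by nlinarith) hCpos.le
  have h8 : 0 < (L : ℝ) ^ 2 := by positivity
  nlinarith

end Pool.Agent.Results.MP_eadfc1_pr.WindowDisproof
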